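import Pool.Agent.Lib.MP_7f581e_Z.Fin.Reg
import Pool.Agent.Lib.MP_7f581e_ntR.Main
import Pool.Agent.Lib.MP_7f581e_ntE.Factor

/-!
# Theorem (H) from the steps
-/

universe u

namespace MP7Z

/-- The composition factors which are allowed: cyclic of prime order, or classical of
characteristic `p`. -/
def IsFactorH (p : ℕ) (S : Type) [Group S] : Prop :=
  (Nat.card S).Prime ∨ MP7fE.IsClassical p S

/-- Theorem (H) from the three steps. -/
theorem mainH (p : ℕ) [Fact p.Prime] (hL : LStep p) (hP : PStep p)
    (hLie : LieStep p (fun S [Group S] => MP7fE.IsClassical p S)) (G : Type) [Group G] [Finite G]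
    (hG : MP7fC.HasFactors (fun S [Group S] => IsFactorH p S) G) :
    (∀ (K : Type u) [Field K] [CharP K p], MP7fR.OccursRegularly G K) ∧
      ∀ (K : Type u) [Field K] [CharP K p], MP7fR.IsHilbertian K → MP7fR.Occurs G K := by
  obtain ⟨Ω, _, _, x, ψ, hψ⟩ := final p hL hP (fun S [Group S] => MP7fE.IsClassical p S)
    (fun S _ h => h.1) (fun S T _ _ e h => h.congr e) hLie G hG
  have h0 : MP7fR.OccursRegularly G (ZMod p) := reg Ω x G ψ hψ
  have h1 : ∀ (K : Type u) [Field K] [CharP K p], MP7fR.OccursRegularly G K := by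
    intro K _ _
    let _ : Algebra (ZMod p) K := ZMod.algebra K p
    exact MP7fR.occursRegularly_baseChange h0
  exact ⟨h1, fun K _ _ hK => MP7fR.occurs_of_isHilbertian hK (h1 K).occurs⟩

end MP7Z
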