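import Pool.Agent.Lib.MP_7f581e_Z.Interface

/-!
# Embedding problems with solvable kernel, quotients, and the induction of Theorem (H)
-/

namespace MP7Z

/-- **Solvable kernels.** Every embedding problem with solvable kernel has a solution with the
invariant (S), after a change of the variable `x = x' ^ n`, `n` prime to `p`. -/
def SolvStmt (p : ℕ) [Fact p.Prime] : Prop :=
  ∀ (Ω : Type) [Field Ω] [Algebra (ZMod p) Ω] (x : Ω) (G : Type) [Group G] [Finite G]
    (ψ : Gx p x →* G), GoodR p x ψ →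
  ∀ (E : Type) [Group E] [Finite E] (f : E →* G), Function.Surjective f → Group.IsSolvable f.ker →
  ∃ (x' : Ω) (n : ℕ), n.Coprime p ∧ x' ^ n = x ∧ ∃ ψ' : Gx p x' →* E, GoodR p x' ψ' ∧
    ∀ (γ : Ω ≃ₐ[ZMod p] Ω) (h' : γ ∈ Gx p x') (h : γ ∈ Gx p x), f (ψ' ⟨γ, h'⟩) = ψ ⟨γ, h⟩

section

variable {p : ℕ} [Fact p.Prime] {Ω : Type} [Field Ω] [Algebra (ZMod p) Ω] {x : Ω}

/-- Good realizations pass to quotients. -/
theorem GoodR.map {G H : Type} [Group G] [Group H] {ψ : Gx p x →* G} (h : GoodR p x ψ)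
    (f : G →* H) (hf : Function.Surjective f) : GoodR p x (f.comp ψ) where
  stage := h.stage
  fin := by
    obtain ⟨S, hS⟩ := h.fin
    exact ⟨S, fun γ hγ => by rw [MonoidHom.comp_apply, hS γ hγ, map_one]⟩
  reg := by
    intro a
    obtain ⟨g, rfl⟩ := hf a
    obtain ⟨γ, h1, rfl⟩ := h.reg g
    exact ⟨γ, h1, rfl⟩
  inv := by
    intro ℓ hℓ hp V hV hb γ hγ hd
    refine h.inv ℓ hℓ hp V hV hb γ hγ (hd.trans ?_)
    exact orderOf_map_dvd f (ψ γ)

/-- A group `S ^ k` with `|S| = ℓ` prime is elementary abelian. -/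
theorem elem_of_pi {M S : Type} [Group M] [Group S] {k : ℕ} (e : M ≃* (Fin k → S)) {ℓ : ℕ}
    (hℓ : ℓ.Prime) (hS : Nat.card S = ℓ) : (∀ a : M, a ^ ℓ = 1) ∧ ∀ a b : M, a * b = b * a := by
  have hf : Fact ℓ.Prime := ⟨hℓ⟩
  have hc : IsCyclic S := isCyclic_of_prime_card hS
  constructor
  · intro a
    apply e.injective
    rw [map_pow, map_one]
    funext i
    rw [Pi.pow_apply, Pi.one_apply, ← hS]
    exact pow_card_eq_one'
  · intro a b
    apply e.injective
    rw [map_mul, map_mul]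
    funext i
    obtain ⟨g, hg⟩ := hc.exists_generator
    obtain ⟨m, hm⟩ := hg (e a i)
    obtain ⟨n, hn⟩ := hg (e b i)
    change e a i * e b i = e b i * e a i
    have hm' : g ^ m = e a i := hm
    have hn' : g ^ n = e b i := hn
    rw [← hm', ← hn', ← zpow_add, ← zpow_add, add_comm]

/-- A minimal normal subgroup inside a nontrivial normal subgroup. -/
theorem exists_min {E : Type} [Group E] [Finite E] (N : Subgroup E) [hNn : N.Normal]
    (hN : N ≠ ⊥) : ∃ M : Subgroup E, M.Normal ∧ M ≤ N ∧ M ≠ ⊥ ∧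
      (∀ Q : Subgroup E, Q.Normal → Q ≤ M → Q = ⊥ ∨ Q = M) ∧
      ∃ S : Subgroup M, S.Normal ∧ IsSimpleGroup S ∧ ∃ k : ℕ, Nonempty (M ≃* (Fin k → S)) := by
  obtain ⟨M, hM⟩ := (Set.toFinite {M : Subgroup E | M.Normal ∧ M ≤ N ∧ M ≠ ⊥}).exists_minimal
    ⟨N, hNn, le_rfl, hN⟩
  have hMn : M.Normal := hM.prop.1
  have hmin : ∀ Q : Subgroup E, Q.Normal → Q ≤ M → Q = ⊥ ∨ Q = M := by
    intro Q hQ hQM
    by_cases hb : Q = ⊥
    · exact Or.inl hb
    · exact Or.inr (le_antisymm hQM (hM.le_of_le ⟨hQ, hQM.trans hM.prop.2.1, hb⟩ hQM))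
  obtain ⟨M', hM', hle, hb, h⟩ := MP7fC.exists_minNormal M hM.prop.2.2
  have h2 : M' = M := (hmin M' hM' hle).resolve_left hb
  subst h2
  exact ⟨M', hM', hM.prop.2.1, hb, hmin, h⟩

theorem card_quot_lt {E : Type} [Group E] [Finite E] (M : Subgroup E) (hM : M ≠ ⊥) :
    Nat.card (E ⧸ M) < Nat.card E := by
  have h4 := Subgroup.card_eq_card_quotient_mul_card_subgroup M
  have h5 : 1 < Nat.card M := by
    rw [← Subgroup.one_lt_card_iff_ne_bot] at hM
    exact hM
  have h6 : 0 < Nat.card (E ⧸ M) := Nat.card_pos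
  rw [h4]
  nlinarith

/-- Solvable kernels. -/
theorem solv (hL : LStep p) (hP : PStep p) : SolvStmt p := by
  intro Ω _ _
  suffices H : ∀ (m : ℕ) (x : Ω) (G : Type) [Group G] [Finite G] (ψ : Gx p x →* G),
      GoodR p x ψ → ∀ (E : Type) [Group E] [Finite E] (f : E →* G), Function.Surjective f →
      Group.IsSolvable f.ker → Nat.card E = m → ∃ (x' : Ω) (n : ℕ), n.Coprime p ∧ x' ^ n = x ∧
      ∃ ψ' : Gx p x' →* E, GoodR p x' ψ' ∧
        ∀ (γ : Ω ≃ₐ[ZMod p] Ω) (h' : γ ∈ Gx p x') (h : γ ∈ Gx p x),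
          f (ψ' ⟨γ, h'⟩) = ψ ⟨γ, h⟩ from
    fun x G _ _ ψ hψ E _ _ f hf hs => H _ x G ψ hψ E f hf hs rfl
  intro m
  induction m using Nat.strong_induction_on with
  | _ m ih =>
    intro x G _ _ ψ hψ E _ _ f hf hs hm
    by_cases hbot : f.ker = ⊥
    · -- `f` is an isomorphism
      have hinj : Function.Injective f := (MonoidHom.ker_eq_bot_iff f).1 hbot
      let e : E ≃* G := MulEquiv.ofBijective f ⟨hinj, hf⟩
      refine ⟨x, 1, Nat.coprime_one_left p, pow_one x, e.symm.toMonoidHom.comp ψ,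
        hψ.map _ e.symm.surjective, ?_⟩
      intro γ h' h
      exact e.apply_symm_apply (ψ ⟨γ, h⟩)
    · obtain ⟨M, hM, hMN, hM1, hmin, S, hS, hSs, k, ⟨φ⟩⟩ := exists_min f.ker hbot
      -- the quotient by `M`
      let g : E ⧸ M →* G := QuotientGroup.lift M f fun a ha => hMN ha
      have hg : Function.Surjective g := by
        intro b
        obtain ⟨a, rfl⟩ := hf b
        exact ⟨(a : E ⧸ M), rfl⟩
      have hgs : Group.IsSolvable g.ker := by
        let t : f.ker →* g.ker :=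
          { toFun := fun a => ⟨((a : E) : E ⧸ M), MonoidHom.mem_ker.2 (MonoidHom.mem_ker.1 a.2)⟩
            map_one' := rfl
            map_mul' := fun _ _ => rfl }
        refine solvable_of_surjective (f := t) ?_
        rintro ⟨a, ha⟩
        obtain ⟨a, rfl⟩ := QuotientGroup.mk_surjective a
        exact ⟨⟨a, MonoidHom.mem_ker.2 (MonoidHom.mem_ker.1 ha)⟩, rfl⟩
      obtain ⟨x₁, n₁, hn₁, hx₁, ψ₁, hψ₁, hc₁⟩ := ih (Nat.card (E ⧸ M))
        (by rw [← hm]; exact card_quot_lt M hM1) x G ψ hψ (E ⧸ M) g hg hgs rfl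
      -- the simple factor is of prime order
      have hsM : Group.IsSolvable M := solvable_of_solvable_injective
        (f := Subgroup.inclusion hMN) (Subgroup.inclusion_injective hMN)
      have hsS : Group.IsSolvable S := solvable_of_solvable_injective
        (f := S.subtype) S.subtype_injective
      have hcomm : ∀ a b : S, a * b = b * a := IsSimpleGroup.comm_iff_isSolvable.2 hsS
      let _ : CommGroup S := { (inferInstance : Group S) with mul_comm := hcomm }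
      have hpr : (Nat.card S).Prime := IsSimpleGroup.prime_card
      obtain ⟨h1, h2⟩ := elem_of_pi φ hpr rfl
      have hker : (QuotientGroup.mk' M).ker = M := QuotientGroup.ker_mk' M
      have hq := QuotientGroup.mk'_surjective M
      have key : ∃ (x' : Ω) (n : ℕ), n.Coprime p ∧ x' ^ n = x₁ ∧ ∃ ψ' : Gx p x' →* E,
          GoodR p x' ψ' ∧ ∀ (γ : Ω ≃ₐ[ZMod p] Ω) (h' : γ ∈ Gx p x') (h : γ ∈ Gx p x₁),
            QuotientGroup.mk' M (ψ' ⟨γ, h'⟩) = ψ₁ ⟨γ, h⟩ := by
        have e1 : ∀ a ∈ (QuotientGroup.mk' M).ker, a ^ Nat.card S = 1 := by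
          intro a ha
          rw [hker] at ha
          exact congrArg Subtype.val (h1 ⟨a, ha⟩)
        have e2 : ∀ a ∈ (QuotientGroup.mk' M).ker, ∀ b ∈ (QuotientGroup.mk' M).ker,
            a * b = b * a := by
          intro a ha b hb
          rw [hker] at ha hb
          exact congrArg Subtype.val (h2 ⟨a, ha⟩ ⟨b, hb⟩)
        have e3 : ∀ N : Subgroup E, N.Normal → N ≤ (QuotientGroup.mk' M).ker →
            N = ⊥ ∨ N = (QuotientGroup.mk' M).ker := by
          rw [hker]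
          exact hmin
        by_cases hℓ : Nat.card S = p
        · obtain ⟨ψ', hψ', hc⟩ := hP Ω x₁ (E ⧸ M) ψ₁ hψ₁ E (QuotientGroup.mk' M) hq
            (by rw [← hℓ]; exact e1) e2 e3
          exact ⟨x₁, 1, Nat.coprime_one_left p, pow_one x₁, ψ', hψ', fun γ h' h => hc ⟨γ, h'⟩⟩
        · exact hL Ω x₁ (E ⧸ M) ψ₁ hψ₁ E (QuotientGroup.mk' M) hq (Nat.card S) hpr hℓ e1 e2 e3
      obtain ⟨x₂, n₂, hn₂, hx₂, ψ₂, hψ₂, hc₂⟩ := key
      refine ⟨x₂, n₂ * n₁, Nat.Coprime.mul_left hn₂ hn₁, by rw [pow_mul, hx₂, hx₁], ψ₂, hψ₂, ?_⟩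
      intro γ h' h
      have h'' : γ ∈ Gx p x₁ := by
        rw [mem_Gx, ← hx₂, map_pow, mem_Gx.1 h']
      have h3 := hc₂ γ h' h''
      have h4 := hc₁ γ h'' h
      rw [← h4, ← h3]
      rfl

end

end MP7Z
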