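import Pool.Agent.Lib.MP_7f581e_Z.Fin.Base

/-!
# A good realization gives a regular realization over `𝔽_p(X)`
-/

namespace MP7Z

section gal

theorem reg_gal {K Ω : Type} [Field K] [Field Ω] [Algebra K Ω] [IsGalois K Ω] {G : Type}
    [Group G] (ψ : (Ω ≃ₐ[K] Ω) →* G) (hψ : Function.Surjective ψ) (S : Finset Ω)
    (hS : ∀ γ : Ω ≃ₐ[K] Ω, (∀ s ∈ S, γ s = s) → ψ γ = 1) :
    ∃ L : IntermediateField K Ω, FiniteDimensional K L ∧ IsGalois K L ∧
      Nonempty ((L ≃ₐ[K] L) ≃* G) ∧ ∀ γ, ψ γ = 1 → ∀ y ∈ L, γ y = y := by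
  have hfd : FiniteDimensional K (IntermediateField.adjoin K (S : Set Ω)) :=
    IntermediateField.finiteDimensional_adjoin fun s _ => Algebra.IsIntegral.isIntegral s
  have hopen : IsOpen (ψ.ker : Set (Ω ≃ₐ[K] Ω)) := by
    have h1 := IntermediateField.fixingSubgroup_isOpen (IntermediateField.adjoin K (S : Set Ω))
    refine Subgroup.isOpen_mono
      (H₁ := (IntermediateField.adjoin K (S : Set Ω)).fixingSubgroup) ?_ h1
    intro γ hγ
    rw [MonoidHom.mem_ker]
    refine hS γ fun s hs => ?_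
    exact (IntermediateField.mem_fixingSubgroup_iff _ _).1 hγ s
      (IntermediateField.subset_adjoin K _ hs)
  have hclosed : IsClosed (ψ.ker : Set (Ω ≃ₐ[K] Ω)) := Subgroup.isClosed_of_isOpen _ hopen
  let H : ClosedSubgroup (Ω ≃ₐ[K] Ω) := ⟨ψ.ker, hclosed⟩
  have hHn : H.Normal := (inferInstance : ψ.ker.Normal)
  let L : IntermediateField K Ω := IntermediateField.fixedField H.1
  have hfix : L.fixingSubgroup = ψ.ker := InfiniteGalois.fixingSubgroup_fixedField H
  have h2 : FiniteDimensional K L ∧ IsGalois K L := by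
    rw [← InfiniteGalois.isOpen_and_normal_iff_finite_and_isGalois, hfix]
    exact ⟨hopen, inferInstance⟩
  refine ⟨L, h2.1, h2.2, ⟨?_⟩, ?_⟩
  · exact (InfiniteGalois.normalAutEquivQuotient H).symm.trans
      (QuotientGroup.quotientKerEquivOfSurjective ψ hψ)
  · intro γ hγ y hy
    exact hy ⟨γ, MonoidHom.mem_ker.2 hγ⟩

end gal

section

variable {p : ℕ} [Fact p.Prime] {Ω : Type} [Field Ω] [Algebra (ZMod p) Ω] {x : Ω}

/-- The embedding of `𝔽_p(X)` given by `x`. -/
noncomputable def emb (hx : Transcendental (ZMod p) x) : RatFunc (ZMod p) →+* Ω :=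
  RatFunc.liftRingHom (Polynomial.aeval x).toRingHom (by
    intro f hf
    rw [Submonoid.mem_comap, mem_nonZeroDivisors_iff_ne_zero]
    intro h
    exact nonZeroDivisors.ne_zero hf ((transcendental_iff.1 hx) f h))

theorem emb_C (hx : Transcendental (ZMod p) x) (c : ZMod p) :
    emb hx (algebraMap (ZMod p) (RatFunc (ZMod p)) c) = algebraMap (ZMod p) Ω c := by
  rw [IsScalarTower.algebraMap_apply (ZMod p) (Polynomial (ZMod p)) (RatFunc (ZMod p)), emb,
    RatFunc.liftRingHom_algebraMap]
  exact (Polynomial.aeval x).commutes c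

theorem emb_X (hx : Transcendental (ZMod p) x) : emb hx RatFunc.X = x := by
  rw [← RatFunc.algebraMap_X, emb, RatFunc.liftRingHom_algebraMap]
  exact Polynomial.aeval_X x

theorem mem_range_emb (hx : Transcendental (ZMod p) x) {f : Ω}
    (hf : f ∈ IntermediateField.adjoin (ZMod p) {x}) : ∃ r, emb hx r = f := by
  let E : IntermediateField (ZMod p) Ω :=
    { (emb hx).fieldRange with
      algebraMap_mem' := fun c => ⟨_, emb_C hx c⟩ }
  have h : IntermediateField.adjoin (ZMod p) {x} ≤ E := by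
    rw [IntermediateField.adjoin_le_iff]
    intro a ha
    rw [Set.mem_singleton_iff.1 ha]
    exact ⟨_, emb_X hx⟩
  exact h hf

/-- `Ω` is Galois over `𝔽_p(X)`. -/
theorem isGalois_emb (hst : IsStage p x) :
    @IsGalois (RatFunc (ZMod p)) _ Ω _ (emb hst.transc).toAlgebra := by
  have := hst.sepClosed
  have := hst.sep
  let _ : Algebra (RatFunc (ZMod p)) Ω := (emb hst.transc).toAlgebra
  have h1 : Algebra.IsSeparable (RatFunc (ZMod p)) Ω := by
    refine ⟨fun z => ?_⟩
    have h2 : IsSeparable (IntermediateField.adjoin (ZMod p) {x}) z :=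
      Algebra.IsSeparable.isSeparable _ z
    choose i hi using fun f : IntermediateField.adjoin (ZMod p) {x} =>
      mem_range_emb hst.transc f.2
    let j : IntermediateField.adjoin (ZMod p) {x} →+* RatFunc (ZMod p) :=
      { toFun := i
        map_one' := (emb hst.transc).injective (by rw [hi, map_one]; rfl)
        map_mul' := fun a b => (emb hst.transc).injective (by
          rw [hi, map_mul, hi, hi]; rfl)
        map_zero' := (emb hst.transc).injective (by rw [hi, map_zero]; rfl)
        map_add' := fun a b => (emb hst.transc).injective (by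
          rw [hi, map_add, hi, hi]; rfl) }
    let P := (minpoly (IntermediateField.adjoin (ZMod p) {x}) z).map j
    have hP : P.Separable := (Polynomial.separable_map j).2 h2
    have hz : Polynomial.aeval z P = 0 := by
      rw [Polynomial.aeval_def, Polynomial.eval₂_map]
      have h3 : (algebraMap (RatFunc (ZMod p)) Ω).comp j =
          algebraMap (IntermediateField.adjoin (ZMod p) {x}) Ω := RingHom.ext fun a => hi a
      rw [h3]
      exact minpoly.aeval _ z
    exact hP.of_dvd (minpoly.dvd _ _ hz)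
  have h2 : IsSepClosure (RatFunc (ZMod p)) Ω := ⟨hst.sepClosed, h1⟩
  infer_instance

/-- **A good realization is regular.** -/
theorem reg : RegStmt p := by
  intro Ω _ _ x G _ _ ψ hψ
  have hst := hψ.stage
  have := hst.sepClosed
  let _ : Algebra (RatFunc (ZMod p)) Ω := (emb hst.transc).toAlgebra
  have hgal : IsGalois (RatFunc (ZMod p)) Ω := isGalois_emb hst
  have hX : algebraMap (RatFunc (ZMod p)) Ω RatFunc.X = x := emb_X hst.transc
  have hC : ∀ c : ZMod p, algebraMap (RatFunc (ZMod p)) Ω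
      (algebraMap (ZMod p) (RatFunc (ZMod p)) c) = algebraMap (ZMod p) Ω c :=
    fun c => emb_C hst.transc c
  -- the two Galois groups
  let toA : (Ω ≃ₐ[RatFunc (ZMod p)] Ω) → (Ω ≃ₐ[ZMod p] Ω) := fun γ =>
    AlgEquiv.ofRingEquiv (f := γ.toRingEquiv) (by
      intro c
      rw [← hC]
      exact γ.commutes _)
  let toG : (Ω ≃ₐ[RatFunc (ZMod p)] Ω) →* Gx p x :=
    { toFun := fun γ => ⟨toA γ, by
        rw [mem_Gx, ← hX]
        exact γ.commutes _⟩
      map_one' := Subtype.ext (AlgEquiv.ext fun _ => rfl)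
      map_mul' := fun a b => Subtype.ext (AlgEquiv.ext fun _ => rfl) }
  have htoG : ∀ (γ : Ω ≃ₐ[RatFunc (ZMod p)] Ω) (z : Ω), (toG γ : Ω ≃ₐ[ZMod p] Ω) z = γ z :=
    fun _ _ => rfl
  have hsurj : Function.Surjective toG := by
    intro γ
    let f : Ω ≃+* Ω := (γ : Ω ≃ₐ[ZMod p] Ω).toRingEquiv
    have hf : ∀ r : RatFunc (ZMod p), f (algebraMap (RatFunc (ZMod p)) Ω r) =
        algebraMap (RatFunc (ZMod p)) Ω r := by
      intro r
      have h1 : (f : Ω →+* Ω).comp (algebraMap (RatFunc (ZMod p)) Ω) =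
          algebraMap (RatFunc (ZMod p)) Ω := by
        apply IsFractionRing.ringHom_ext (A := Polynomial (ZMod p))
        intro P
        have h2 : ((f : Ω →+* Ω).comp (algebraMap (RatFunc (ZMod p)) Ω)).comp
            (algebraMap (Polynomial (ZMod p)) (RatFunc (ZMod p))) =
            (algebraMap (RatFunc (ZMod p)) Ω).comp
              (algebraMap (Polynomial (ZMod p)) (RatFunc (ZMod p))) := by
          apply Polynomial.ringHom_ext
          · intro c
            have h3 : algebraMap (Polynomial (ZMod p)) (RatFunc (ZMod p)) (Polynomial.C c) =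
                algebraMap (ZMod p) (RatFunc (ZMod p)) c := rfl
            change (γ : Ω ≃ₐ[ZMod p] Ω) (algebraMap (RatFunc (ZMod p)) Ω
              (algebraMap (Polynomial (ZMod p)) (RatFunc (ZMod p)) (Polynomial.C c))) =
              algebraMap (RatFunc (ZMod p)) Ω
                (algebraMap (Polynomial (ZMod p)) (RatFunc (ZMod p)) (Polynomial.C c))
            rw [h3, hC]
            exact (γ : Ω ≃ₐ[ZMod p] Ω).commutes c
          · change (γ : Ω ≃ₐ[ZMod p] Ω) (algebraMap (RatFunc (ZMod p)) Ω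
              (algebraMap (Polynomial (ZMod p)) (RatFunc (ZMod p)) Polynomial.X)) =
              algebraMap (RatFunc (ZMod p)) Ω
                (algebraMap (Polynomial (ZMod p)) (RatFunc (ZMod p)) Polynomial.X)
            rw [RatFunc.algebraMap_X, hX]
            exact mem_Gx.1 γ.2
        exact congrArg (fun g : Polynomial (ZMod p) →+* Ω => g P) h2
      exact congrArg (fun g : RatFunc (ZMod p) →+* Ω => g r) h1
    refine ⟨AlgEquiv.ofRingEquiv (f := f) hf, ?_⟩
    exact Subtype.ext (AlgEquiv.ext fun _ => rfl)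
  obtain ⟨S, hS⟩ := hψ.fin
  have hψs : Function.Surjective ψ := by
    intro g
    obtain ⟨γ, -, h⟩ := hψ.reg g
    exact ⟨γ, h⟩
  obtain ⟨L, hfd, hLg, hiso, hfix⟩ := reg_gal (ψ.comp toG) (hψs.comp hsurj) S
    (fun γ hγ => hS (toG γ) hγ)
  refine ⟨L, inferInstance, inferInstance, hfd, hLg, hiso, ?_⟩
  rintro y ⟨f, hf0, hf⟩
  -- `y` is a constant of `Ω`
  have halg : IsAlgebraic (ZMod p) (y : Ω) := by
    refine ⟨f, hf0, ?_⟩
    have h1 := congrArg (algebraMap L Ω) hf
    rw [map_zero, Polynomial.hom_eval₂] at h1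
    have h2 : (algebraMap L Ω).comp ((algebraMap (RatFunc (ZMod p)) L).comp
        (algebraMap (ZMod p) (RatFunc (ZMod p)))) = algebraMap (ZMod p) Ω := RingHom.ext hC
    rw [h2] at h1
    exact h1
  have hcst : (y : Ω) ∈ Cst p Ω := mem_algebraicClosure_iff.2 halg
  -- `y` is fixed by the Galois group
  have hall : ∀ γ : Ω ≃ₐ[RatFunc (ZMod p)] Ω, γ (y : Ω) = y := by
    intro γ
    obtain ⟨γ₁, h1, h2⟩ := hψ.reg (ψ (toG γ))
    obtain ⟨γ₂, rfl⟩ := hsurj γ₁
    have h3 : (ψ.comp toG) (γ₂⁻¹ * γ) = 1 := by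
      rw [MonoidHom.comp_apply, map_mul, map_inv, map_mul, map_inv, h2, inv_mul_cancel]
    have h4 := hfix _ h3 y y.2
    have h5 : γ₂ (y : Ω) = y := h1 y hcst
    calc γ (y : Ω) = γ₂ ((γ₂⁻¹ * γ) (y : Ω)) := by
          rw [AlgEquiv.mul_apply, ← AlgEquiv.mul_apply γ₂ γ₂⁻¹, mul_inv_cancel, AlgEquiv.one_apply]
      _ = y := by rw [h4, h5]
  obtain ⟨r, hr⟩ := (InfiniteGalois.mem_range_algebraMap_iff_fixed (y : Ω)).2 hall
  -- `r` is algebraic over the prime field
  have hr2 : ∃ c, r = RatFunc.C c := by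
    by_contra hcon
    have htr : Transcendental (ZMod p) r := RatFunc.transcendental_of_ne_C _ hcon
    apply htr
    refine ⟨f, hf0, ?_⟩
    apply (algebraMap (RatFunc (ZMod p)) Ω).injective
    have h1 := congrArg (algebraMap L Ω) hf
    rw [map_zero, Polynomial.hom_eval₂] at h1
    rw [map_zero, Polynomial.aeval_def, Polynomial.hom_eval₂, hr]
    exact h1
  obtain ⟨c, rfl⟩ := hr2
  refine ⟨c, ?_⟩
  apply (algebraMap L Ω).injective
  exact hr

end

end MP7Z
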