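import Pool.Agent.Lib.MP_7f581e_Z.Fin.Solv

/-!
# The stage: the separable closure of `𝔽_p(X)`
-/

namespace MP7Z

section

variable (p : ℕ) [Fact p.Prime]

/-- The separable closure of `𝔽_p(X)`. -/
abbrev Om : Type := SeparableClosure (RatFunc (ZMod p))

/-- The variable. -/
noncomputable def xx : Om p := algebraMap (RatFunc (ZMod p)) (Om p) RatFunc.X

theorem isStage_xx : IsStage p (xx p) where
  sepClosed := inferInstance
  transc := by
    have h : Transcendental (ZMod p) (RatFunc.X : RatFunc (ZMod p)) := RatFunc.transcendental_X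
    have hinj : Function.Injective (algebraMap (RatFunc (ZMod p)) (Om p)) :=
      (algebraMap (RatFunc (ZMod p)) (Om p)).injective
    exact (transcendental_algebraMap_iff hinj).2 h
  sep := by
    have h1 : Algebra.IsSeparable (RatFunc (ZMod p)) (Om p) := inferInstance
    refine ⟨fun z => ?_⟩
    have h2 : IsSeparable (RatFunc (ZMod p)) z := Algebra.IsSeparable.isSeparable (RatFunc (ZMod p)) z
    -- the image of `𝔽_p(X)` lies in the field generated by `x`
    have h3 : ∀ f : RatFunc (ZMod p), algebraMap (RatFunc (ZMod p)) (Om p) f ∈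
        IntermediateField.adjoin (ZMod p) {xx p} := by
      intro f
      have h4 : f ∈ IntermediateField.adjoin (ZMod p) {(RatFunc.X : RatFunc (ZMod p))} := by
        rw [RatFunc.adjoin_X]
        exact IntermediateField.mem_top
      have h5 := (IntermediateField.mem_map
        (S := IntermediateField.adjoin (ZMod p) {(RatFunc.X : RatFunc (ZMod p))})
        (f := IsScalarTower.toAlgHom (ZMod p) (RatFunc (ZMod p)) (Om p))).2 ⟨f, h4, rfl⟩
      rw [IntermediateField.adjoin_map, Set.image_singleton] at h5
      exact h5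
    let j : RatFunc (ZMod p) →+* IntermediateField.adjoin (ZMod p) {xx p} :=
      (algebraMap (RatFunc (ZMod p)) (Om p)).codRestrict
        (IntermediateField.adjoin (ZMod p) {xx p}).toSubfield.toSubring h3
    let P := (minpoly (RatFunc (ZMod p)) z).map j
    have hP : P.Separable := (Polynomial.separable_map j).2 h2
    have hz : Polynomial.aeval z P = 0 := by
      rw [Polynomial.aeval_def, Polynomial.eval₂_map]
      exact minpoly.aeval (RatFunc (ZMod p)) z
    exact hP.of_dvd (minpoly.dvd _ _ hz)

/-- The trivial group has a good realization. -/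
theorem good_triv {G : Type} [Group G] [Subsingleton G] : GoodR p (xx p) (1 : Gx p (xx p) →* G) where
  stage := isStage_xx p
  fin := ⟨∅, fun _ _ => rfl⟩
  reg := fun g => ⟨1, (Fx p (Cst p (Om p) : Set (Om p))).one_mem, Subsingleton.elim _ _⟩
  inv := by
    intro ℓ hℓ _ V _ _ γ _ hd
    rw [MonoidHom.one_apply, orderOf_one] at hd
    exact hℓ.one_lt.ne' (Nat.dvd_one.1 hd)

/-- **The induction of Theorem (H).** -/
theorem final : FinalStmt p := by
  intro hL hP 𝒮 hsim hiso hS
  have hsim' : ∀ (S : Type) [Group S], ((Nat.card S).Prime ∨ 𝒮 S) → IsSimpleGroup S := by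
    intro S _ h
    rcases h with h | h
    · have : Fact (Nat.card S).Prime := ⟨h⟩
      exact isSimpleGroup_of_prime_card rfl
    · exact hsim S h
  have hiso' : ∀ (S T : Type) [Group S] [Group T], (S ≃* T) → ((Nat.card S).Prime ∨ 𝒮 S) →
      ((Nat.card T).Prime ∨ 𝒮 T) := by
    intro S T _ _ e h
    rcases h with h | h
    · left
      rw [← Nat.card_congr e.toEquiv]
      exact h
    · exact Or.inr (hiso S T e h)
  suffices H : ∀ (m : ℕ) (G : Type) [Group G] [Finite G], Nat.card G = m →
      MP7fC.HasFactors (fun S [Group S] => (Nat.card S).Prime ∨ 𝒮 S) G →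
      ∃ (Ω : Type) (_ : Field Ω) (_ : Algebra (ZMod p) Ω) (x : Ω) (ψ : Gx p x →* G),
        GoodR p x ψ from fun G _ _ h => H _ G rfl h
  intro m
  induction m using Nat.strong_induction_on with
  | _ m ih =>
    intro G _ _ hm hG
    rcases subsingleton_or_nontrivial G with hsub | hnt
    · exact ⟨Om p, inferInstance, inferInstance, xx p, 1, good_triv p⟩
    · obtain ⟨M, hM, -, hM1, hmin, S, hSn, hSs, k, ⟨φ⟩⟩ := exists_min (⊤ : Subgroup G)
        (by
          intro h
          obtain ⟨a, b, hab⟩ := hnt
          apply hab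
          have h1 : a ∈ (⊤ : Subgroup G) := Subgroup.mem_top a
          have h2 : b ∈ (⊤ : Subgroup G) := Subgroup.mem_top b
          rw [h, Subgroup.mem_bot] at h1 h2
          rw [h1, h2])
      have hMF : MP7fC.HasFactors (fun S [Group S] => (Nat.card S).Prime ∨ 𝒮 S) M := by
        refine hG.of_injective hiso' hsim' M M.subtype M.subtype_injective ?_
        rw [Subgroup.range_subtype]
        exact hM
      have hSF : MP7fC.HasFactors (fun S [Group S] => (Nat.card S).Prime ∨ 𝒮 S) S := by
        refine hMF.of_injective hiso' hsim' S S.subtype S.subtype_injective ?_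
        rw [Subgroup.range_subtype]
        exact hSn
      have h3 : (Nat.card S).Prime ∨ 𝒮 S := hSF.mem_of_isSimpleGroup hiso' hsim'
      have hq := QuotientGroup.mk'_surjective M
      have hker : (QuotientGroup.mk' M).ker = M := QuotientGroup.ker_mk' M
      obtain ⟨Ω, _, _, x, ψ, hψ⟩ := ih (Nat.card (G ⧸ M)) (by rw [← hm]; exact card_quot_lt M hM1)
        (G ⧸ M) rfl (hG.of_surjective hiso' hsim' _ (QuotientGroup.mk' M) hq)
      have e3 : ∀ N : Subgroup G, N.Normal → N ≤ (QuotientGroup.mk' M).ker →
          N = ⊥ ∨ N = (QuotientGroup.mk' M).ker := by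
        rw [hker]
        exact hmin
      rcases h3 with h3 | h3
      · obtain ⟨h1, h2⟩ := elem_of_pi φ h3 rfl
        have e1 : ∀ a ∈ (QuotientGroup.mk' M).ker, a ^ Nat.card S = 1 := by
          intro a ha
          rw [hker] at ha
          exact congrArg Subtype.val (h1 ⟨a, ha⟩)
        have e2 : ∀ a ∈ (QuotientGroup.mk' M).ker, ∀ b ∈ (QuotientGroup.mk' M).ker,
            a * b = b * a := by
          intro a ha b hb
          rw [hker] at ha hb
          exact congrArg Subtype.val (h2 ⟨a, ha⟩ ⟨b, hb⟩)
        by_cases hℓ : Nat.card S = p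
        · obtain ⟨ψ', hψ', -⟩ := hP Ω x (G ⧸ M) ψ hψ G (QuotientGroup.mk' M) hq
            (by rw [← hℓ]; exact e1) e2 e3
          exact ⟨Ω, inferInstance, inferInstance, x, ψ', hψ'⟩
        · obtain ⟨x', -, -, -, ψ', hψ', -⟩ := hL Ω x (G ⧸ M) ψ hψ G (QuotientGroup.mk' M) hq
            (Nat.card S) h3 hℓ e1 e2 e3
          exact ⟨Ω, inferInstance, inferInstance, x', ψ', hψ'⟩
      · have e4 : (QuotientGroup.mk' M).ker ≃* (Fin k → S) :=
          (MulEquiv.subgroupCongr hker).trans φ
        obtain ⟨x', ψ', hψ'⟩ := hS Ω x (G ⧸ M) ψ hψ G (QuotientGroup.mk' M) hq S (Fin k) h3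
          ⟨e4⟩ e3
        exact ⟨Ω, inferInstance, inferInstance, x', ψ', hψ'⟩

end

end MP7Z
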